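import Pool.Agent.Helper63.Sey2.Goals

/-!
# PACKET SEY2-T1 (MP_b6b2d3_co): the first theorem in terms of the graph itself
-/

namespace Pool.Agent.Helper59.Sey2

open Pool.Agent.Helper63.Sey2

theorem goalT1 : GoalCOVER → GoalT1 := by
  intro hcov A
  obtain ⟨K, hK⟩ := hcov A
  refine ⟨K, ?_⟩
  intro r hr V _ _ G _ m f hf hcard hdeg
  have hdegH : ∀ v, (r + 1) * Nat.card {u // Gᶜ.Adj v u} ≤ Fintype.card V := by
    intro v
    have h1 : Nat.card {u // Gᶜ.Adj v u} = Gᶜ.degree v := by
      rw [Nat.card_eq_fintype_card, ← SimpleGraph.card_neighborSet_eq_degree]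
      rfl
    rw [h1, SimpleGraph.degree_compl]
    have h2 : G.minDegree ≤ G.degree v := G.minDegree_le_degree v
    have h3 : r * Fintype.card V ≤ (r + 1) * G.degree v :=
      hdeg.trans (Nat.mul_le_mul_left _ h2)
    have h4 : G.degree v ≤ Fintype.card V - 1 := by
      have := G.degree_lt_card_verts v
      omega
    have h5 : (r + 1) * (Fintype.card V - 1 - G.degree v) + (r + 1) * G.degree v
        = (r + 1) * (Fintype.card V - 1) := by
      rw [← Nat.mul_add]
      congr 1
      omega
    have h6 : (r + 1) * (Fintype.card V - 1) ≤ (r + 1) * Fintype.card V :=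
      Nat.mul_le_mul_left _ (Nat.sub_le _ _)
    have h7 : (r + 1) * Fintype.card V = r * Fintype.card V + Fintype.card V := by ring
    omega
  obtain ⟨σ, hσ⟩ := hK V Gᶜ (r + 1) m f (by omega) hdegH
    (fun u v huv hfe => by
      rw [SimpleGraph.compl_adj] at huv
      exact huv.2 (hf u v huv.1 hfe)) hcard
  refine ⟨σ, fun i k hik hd => ?_⟩
  by_contra hadj
  have h8 := hσ i k (by
    rw [SimpleGraph.compl_adj]
    exact ⟨fun h => hik (σ.injective h).symm, hadj⟩)
  have h9 : A * r ≤ A * (r + 1) := Nat.mul_le_mul_left _ (Nat.le_succ r)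
  omega

end Pool.Agent.Helper59.Sey2
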